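import Pool.Agent.Helper84.TL.Defs
import Pool.Agent.Helper28.TB.GFun

/-!
# Project TL, TL-O: the probability bound for one box (from the entropy inequality)
-/

set_option autoImplicit false

namespace Pool.Agent.Helper84.TL

open Finset Pool.Agent.Lead.TB

theorem h28_icc_union {m D : ℕ} (h : m ≤ D) (f : ℕ → ℝ) :
    ∑ j ∈ Icc 1 m, f j + ∑ j ∈ Icc (m + 1) D, f j = ∑ j ∈ Icc 1 D, f j := by
  rw [← Finset.sum_union]
  · congr 1
    ext j
    simp only [mem_union, mem_Icc]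
    omega
  · rw [Finset.disjoint_left]
    intro j hj hj'
    simp only [mem_Icc] at hj hj'
    omega

theorem h28_harm {m : ℕ} : ∑ j ∈ Icc 1 m, (1 : ℝ) / j ≤ 1 + Real.log m := by
  have h := harmonic_le_one_add_log m
  rw [harmonic_eq_sum_Icc] at h
  push_cast at h
  simpa [one_div] using h

theorem h28_low_fact {D : ℕ} (hD : 1 ≤ D) :
    (D : ℝ) * Real.log D - D ≤ Real.log (D.factorial : ℝ) := by
  have hD0 : (0 : ℝ) < D := by exact_mod_cast hD
  have hf : (0 : ℝ) < (D.factorial : ℝ) := by exact_mod_cast Nat.factorial_pos D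
  have h1 := Real.pow_div_factorial_le_exp (D : ℝ) hD0.le D
  have h2 := Real.log_le_log (by positivity) h1
  rw [Real.log_div (by positivity) hf.ne', Real.log_exp, Real.log_pow] at h2
  linarith

/-- The numerical estimate. -/
theorem h28_num {n c m D : ℕ} (hc : 1 ≤ c) (hD : c + m = D) (hcm : c ≤ m)
    (hD1 : 2 * (c : ℝ) * (1 + Real.log c) ≤ D) (hD2 : (D : ℝ) ≤ 4 * c * (1 + Real.log c))
    (hDn : D ≤ n) :
    n * ∑ j ∈ Icc (m + 1) D, Real.log (g j) +
      ∑ j ∈ Icc 1 m, (n * (Real.log j - 1 + 4 / j) +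
        19 / (j : ℝ) ^ 2 * (4 * (j : ℝ) ^ 2 + 2 * j * n) +
        96 * Real.log j / (j : ℝ) ^ 3 * (8 * (j : ℝ) ^ 3 + 4 * (j : ℝ) ^ 2)) -
      n * Real.log ((D.factorial : ℝ) ^ 2 / (D : ℝ) ^ D) ≤ 2508 * n * (1 + Real.log c) := by
  have hc0 : (1 : ℝ) ≤ c := by exact_mod_cast hc
  have hlc : 0 ≤ Real.log c := Real.log_nonneg hc0
  set l : ℝ := 1 + Real.log c with hl
  have hl1 : 1 ≤ l := by linarith
  have hm1 : 1 ≤ m := hc.trans hcm
  have hD0 : 1 ≤ D := by omega
  have hDr : (c : ℝ) + m = D := by exact_mod_cast hD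
  have hDpos : (0 : ℝ) < D := by exact_mod_cast hD0
  have hmpos : (0 : ℝ) < m := by exact_mod_cast hm1
  have hn0 : (0 : ℝ) ≤ n := Nat.cast_nonneg n
  have hDn' : (D : ℝ) ≤ n := by exact_mod_cast hDn
  have hfD : (0 : ℝ) < (D.factorial : ℝ) := by exact_mod_cast Nat.factorial_pos D
  -- the logarithm of `D`
  have hlogD : Real.log D ≤ 2 * l := by
    have h1 : Real.log D ≤ Real.log (4 * c * l) := Real.log_le_log hDpos hD2
    rw [Real.log_mul (by positivity) (by positivity), Real.log_mul (by norm_num) (by positivity)]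
      at h1
    have h2 : Real.log l ≤ l - 1 := Real.log_le_sub_one_of_pos (by linarith)
    have h3 : Real.log 4 ≤ 2 := by
      have : Real.log 4 = 2 * Real.log 2 := by
        rw [show (4 : ℝ) = 2 ^ 2 by norm_num, Real.log_pow]
        norm_num
      rw [this]
      have := Real.log_two_lt_d9
      linarith
    linarith
  -- the part `m < j ≤ D`
  have h1 : ∑ j ∈ Icc (m + 1) D, Real.log (g j) ≤
      ∑ j ∈ Icc (m + 1) D, (Real.log j - 1) + 2 := by
    have h2 : ∀ j ∈ Icc (m + 1) D, Real.log (g j) ≤ (Real.log j - 1) + (1 + l) / m := by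
      intro j hj
      rw [mem_Icc] at hj
      have hj1 : 1 ≤ j := by omega
      have hj0 : (0 : ℝ) < j := by exact_mod_cast hj1
      have hmj : (m : ℝ) ≤ j := by exact_mod_cast (show m ≤ j by omega)
      have hjD : Real.log j ≤ Real.log D :=
        Real.log_le_log hj0 (by exact_mod_cast hj.2)
      have hlj : 0 ≤ Real.log j := Real.log_nonneg (by exact_mod_cast hj1)
      rw [h28_log_g]
      have h3 := h28_log_fact hj1
      have h4 : Real.log (j.factorial : ℝ) / j ≤ (1 + Real.log j / 2 + j * Real.log j - j) / j :=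
        div_le_div_of_nonneg_right h3 hj0.le
      have h5 : (1 + Real.log j / 2 + j * Real.log j - j) / j =
          (Real.log j - 1) + (1 + Real.log j / 2) / j := by
        field_simp
        ring
      have h6 : (1 + Real.log j / 2) / j ≤ (1 + l) / m := by
        apply div_le_div₀ (by linarith) (by linarith) hmpos hmj
      linarith
    refine (Finset.sum_le_sum h2).trans ?_
    rw [Finset.sum_add_distrib, Finset.sum_const, Nat.card_Icc, nsmul_eq_mul]
    have h7 : ((D + 1 - (m + 1) : ℕ) : ℝ) = c := by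
      have : D + 1 - (m + 1) = c := by omega
      rw [this]
    rw [h7]
    have h8 : (c : ℝ) * l ≤ m := by nlinarith
    have h9 : (c : ℝ) * ((1 + l) / m) ≤ 2 := by
      rw [mul_div_assoc', div_le_iff₀ hmpos]
      nlinarith
    linarith
  -- the part `j ≤ m`
  have h2 : ∑ j ∈ Icc 1 m, (n * (Real.log j - 1 + 4 / j) +
        19 / (j : ℝ) ^ 2 * (4 * (j : ℝ) ^ 2 + 2 * j * n) +
        96 * Real.log j / (j : ℝ) ^ 3 * (8 * (j : ℝ) ^ 3 + 4 * (j : ℝ) ^ 2)) ≤
      n * ∑ j ∈ Icc 1 m, (Real.log j - 1) + 2506 * n * l := by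
    have h3 : ∀ j ∈ Icc 1 m, (n * (Real.log j - 1 + 4 / j) +
        19 / (j : ℝ) ^ 2 * (4 * (j : ℝ) ^ 2 + 2 * j * n) +
        96 * Real.log j / (j : ℝ) ^ 3 * (8 * (j : ℝ) ^ 3 + 4 * (j : ℝ) ^ 2)) ≤
        n * (Real.log j - 1) + 42 * n * (1 / j) + (76 + 2304 * l) := by
      intro j hj
      rw [mem_Icc] at hj
      have hj0 : (0 : ℝ) < j := by exact_mod_cast hj.1
      have hj1 : (1 : ℝ) ≤ j := by exact_mod_cast hj.1
      have hjD : Real.log j ≤ Real.log D :=
        Real.log_le_log hj0 (by exact_mod_cast (show j ≤ D by omega))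
      have hlj : 0 ≤ Real.log j := Real.log_nonneg hj1
      have e1 : 19 / (j : ℝ) ^ 2 * (4 * (j : ℝ) ^ 2 + 2 * j * n) = 76 + 38 * n * (1 / j) := by
        field_simp
        ring
      have e2 : 96 * Real.log j / (j : ℝ) ^ 3 * (8 * (j : ℝ) ^ 3 + 4 * (j : ℝ) ^ 2) =
          96 * Real.log j * (8 + 4 * (1 / j)) := by
        field_simp
      have e3 : (1 : ℝ) / j ≤ 1 := by
        rw [div_le_one hj0]
        exact hj1
      rw [e1, e2]
      have e4 : 96 * Real.log j * (8 + 4 * (1 / j)) ≤ 96 * (2 * l) * 12 := by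
        apply mul_le_mul _ _ (by positivity) (by positivity)
        · linarith
        · linarith
      have e5 : (n : ℝ) * (Real.log j - 1 + 4 / j) = n * (Real.log j - 1) + 4 * n * (1 / j) := by
        ring
      rw [e5]
      linarith
    refine (Finset.sum_le_sum h3).trans ?_
    rw [Finset.sum_add_distrib, Finset.sum_add_distrib, ← Finset.mul_sum, ← Finset.mul_sum,
      Finset.sum_const, Nat.card_Icc, nsmul_eq_mul, Nat.add_sub_cancel]
    have h4 : ∑ j ∈ Icc 1 m, (1 : ℝ) / j ≤ 3 * l := by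
      have h5 := h28_harm (m := m)
      have h6 : Real.log m ≤ Real.log D :=
        Real.log_le_log hmpos (by exact_mod_cast (show m ≤ D by omega))
      linarith
    have h7 : 42 * (n : ℝ) * ∑ j ∈ Icc 1 m, (1 : ℝ) / j ≤ 42 * n * (3 * l) :=
      mul_le_mul_of_nonneg_left h4 (by positivity)
    have h8 : (m : ℝ) * (76 + 2304 * l) ≤ n * (2380 * l) := by
      have : (m : ℝ) ≤ n := by exact_mod_cast (show m ≤ n by omega)
      apply mul_le_mul this _ (by positivity) hn0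
      linarith
    linarith
  -- the main terms
  have h3 : ∑ j ∈ Icc 1 m, (Real.log (j : ℝ) - 1) + ∑ j ∈ Icc (m + 1) D, (Real.log (j : ℝ) - 1) =
      Real.log (D.factorial : ℝ) - D := by
    rw [h28_icc_union (by omega) (fun j => Real.log (j : ℝ) - 1), Finset.sum_sub_distrib,
      h28_sum_log, Finset.sum_const, Nat.card_Icc, nsmul_eq_mul]
    simp
  have h4 : Real.log ((D.factorial : ℝ) ^ 2 / (D : ℝ) ^ D) =
      2 * Real.log (D.factorial : ℝ) - D * Real.log D := by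
    rw [Real.log_div (by positivity) (by positivity), Real.log_pow, Real.log_pow]
    norm_num
  have h5 := h28_low_fact hD0
  have h6 := mul_le_mul_of_nonneg_left h1 hn0
  have h7 := mul_le_mul_of_nonneg_left h5 hn0
  have h8 : (n : ℝ) ≤ n * l := by nlinarith
  rw [h4]
  have h9 : (n : ℝ) * (∑ j ∈ Icc 1 m, (Real.log (j : ℝ) - 1) +
      ∑ j ∈ Icc (m + 1) D, (Real.log (j : ℝ) - 1)) = n * (Real.log (D.factorial : ℝ) - D) := by
    rw [h3]
  nlinarith

theorem h28_large {n c : ℕ} (hn : 100 ^ 8 ≤ n) (hc1 : 1 ≤ c)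
    (hc : (c : ℝ) ≤ 2 * (n : ℝ) ^ ((3 : ℝ) / 4)) : 4 * (c : ℝ) * (1 + Real.log c) ≤ n := by
  have hn0 : (0 : ℝ) ≤ n := Nat.cast_nonneg n
  set y : ℝ := (n : ℝ) ^ ((1 : ℝ) / 8) with hy
  have hy8 : y ^ 8 = n := by
    rw [hy, ← Real.rpow_natCast, ← Real.rpow_mul hn0]
    norm_num
  have hy6 : y ^ 6 = (n : ℝ) ^ ((3 : ℝ) / 4) := by
    rw [hy, ← Real.rpow_natCast, ← Real.rpow_mul hn0]
    norm_num
  have hy0 : 0 ≤ y := Real.rpow_nonneg hn0 _
  have hy100 : 100 ≤ y := by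
    by_contra hlt
    rw [not_le] at hlt
    have h1 : y ^ 8 < 100 ^ 8 := pow_lt_pow_left₀ hlt hy0 (by norm_num)
    rw [hy8] at h1
    have h2 : (100 : ℝ) ^ 8 ≤ n := by exact_mod_cast hn
    linarith
  have hcr : (1 : ℝ) ≤ c := by exact_mod_cast hc1
  rw [← hy6] at hc
  have hlog : Real.log c ≤ 1 + 6 * y := by
    have h1 : Real.log c ≤ Real.log (2 * y ^ 6) := Real.log_le_log (by linarith) hc
    rw [Real.log_mul (by norm_num) (by positivity), Real.log_pow] at h1
    have h2 : Real.log y ≤ y - 1 := Real.log_le_sub_one_of_pos (by linarith)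
    have h3 := Real.log_two_lt_d9
    push_cast at h1
    linarith
  have hlc : 0 ≤ Real.log c := Real.log_nonneg hcr
  calc 4 * (c : ℝ) * (1 + Real.log c) ≤ 4 * (2 * y ^ 6) * (2 + 6 * y) := by
        apply mul_le_mul _ _ (by linarith) (by positivity)
        · linarith
        · linarith
    _ = y ^ 6 * (16 + 48 * y) := by ring
    _ ≤ y ^ 6 * y ^ 2 := by
        apply mul_le_mul_of_nonneg_left _ (by positivity)
        nlinarith
    _ = y ^ 8 := by ring
    _ = n := hy8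

/-- The form of the entropy inequality which is used. -/
def h28_MainIneq : Prop :=
  ∀ {n k m : ℕ} (T₁ T₂ T₃ : Finset (Fin n)), T₃.card + m = 2 ^ k →
    T₃.card ≤ m → 1 ≤ m → T₃.card + m ≤ n → n + 2 + 2 * T₃.card ≤ 2 * n →
    (emp T₁ T₂ T₃).Nonempty →
    Real.log (((emp T₁ T₂ T₃).card : ℝ) / (ls n).card) ≤
      n * ∑ j ∈ Icc (m + 1) (2 ^ k), Real.log (g j) -
      Real.log 2 * T₃.card / (2 : ℝ) ^ k * (m / (n - T₃.card) * (T₁.card * T₂.card)) +
      ∑ j ∈ Icc 1 m, (n * (Real.log j - 1 + 4 / j) +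
        19 / (j : ℝ) ^ 2 * (4 * (j : ℝ) ^ 2 + 2 * j * n) +
        96 * Real.log j / (j : ℝ) ^ 3 * (8 * (j : ℝ) ^ 3 + 4 * (j : ℝ) ^ 2)) -
      n * Real.log (((2 ^ k).factorial : ℝ) ^ 2 / ((2 : ℝ) ^ k) ^ (2 ^ k))

theorem h28_main_term {a c m D n : ℝ} (ha : 0 ≤ a) (hc : 0 ≤ c) (hD : c + m = D) (hcm : c ≤ m)
    (hD0 : 0 < D) (hcn : c < n) :
    Real.log 2 / 2 * (a * c / n) ≤ Real.log 2 * c / D * (m / (n - c) * a) := by
  have hn : 0 < n := lt_of_le_of_lt hc hcn
  have h2 : 0 ≤ Real.log 2 := Real.log_nonneg (by norm_num)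
  have h3 : 1 / 2 ≤ m / D := by
    rw [div_le_div_iff₀ (by norm_num) hD0]
    linarith
  have h4 : 1 / n ≤ 1 / (n - c) := one_div_le_one_div_of_le (by linarith) (by linarith)
  have h5 : 1 / 2 * (1 / n) ≤ m / D * (1 / (n - c)) :=
    mul_le_mul h3 h4 (by positivity) (by linarith)
  have h6 := mul_le_mul_of_nonneg_left h5 (show 0 ≤ Real.log 2 * c * a by positivity)
  calc Real.log 2 / 2 * (a * c / n) = Real.log 2 * c * a * (1 / 2 * (1 / n)) := by ring
    _ ≤ Real.log 2 * c * a * (m / D * (1 / (n - c))) := h6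
    _ = Real.log 2 * c / D * (m / (n - c) * a) := by ring

theorem one_box_of (H : h28_MainIneq) :
    ∃ (K : ℝ) (n₀ : ℕ), 0 < K ∧ ∀ n : ℕ, n₀ ≤ n → ∀ T₁ T₂ T₃ : Finset (Fin n),
    1 ≤ T₃.card → (T₃.card : ℝ) ≤ 2 * (n : ℝ) ^ ((3 : ℝ) / 4) →
    ((emp T₁ T₂ T₃).card : ℝ) ≤ Real.exp (K * n * (1 + Real.log T₃.card) -
      Real.log 2 / 2 * (T₁.card * T₂.card * T₃.card / n)) * (ls n).card := by
  refine ⟨2508, 100 ^ 8, by norm_num, ?_⟩
  intro n hn T₁ T₂ T₃ h1 h2
  rcases (emp T₁ T₂ T₃).eq_empty_or_nonempty with he | hne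
  · rw [he, Finset.card_empty, Nat.cast_zero]
    positivity
  set c := T₃.card with hc
  have hcr : (1 : ℝ) ≤ c := by exact_mod_cast h1
  have hlc : 0 ≤ Real.log c := Real.log_nonneg hcr
  have hbig := h28_large hn h1 h2
  obtain ⟨i, hi1, hi2⟩ := exists_nat_pow_near
    (show (1 : ℝ) ≤ 2 * c * (1 + Real.log c) by nlinarith) (show (1 : ℝ) < 2 by norm_num)
  have hD1 : 2 * (c : ℝ) * (1 + Real.log c) ≤ ((2 ^ (i + 1) : ℕ) : ℝ) := by
    push_cast
    exact hi2.le
  have hD2 : ((2 ^ (i + 1) : ℕ) : ℝ) ≤ 4 * c * (1 + Real.log c) := by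
    push_cast
    rw [pow_succ]
    linarith
  have hDn : 2 ^ (i + 1) ≤ n := by
    have : ((2 ^ (i + 1) : ℕ) : ℝ) ≤ n := hD2.trans hbig
    exact_mod_cast this
  have hcD : 2 * c ≤ 2 ^ (i + 1) := by
    have : ((2 * c : ℕ) : ℝ) ≤ ((2 ^ (i + 1) : ℕ) : ℝ) := by
      refine le_trans ?_ hD1
      push_cast
      nlinarith
    exact_mod_cast this
  obtain ⟨m, hm⟩ : ∃ m, c + m = 2 ^ (i + 1) := ⟨2 ^ (i + 1) - c, by omega⟩
  have hcm : c ≤ m := by omega
  have hm1 : 1 ≤ m := by omega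
  have hn2 : 2 + 2 * c ≤ n := by
    have h5 : (2 : ℝ) + 2 * c ≤ n := by
      nlinarith
    exact_mod_cast h5
  have h3 := H T₁ T₂ T₃ hm hcm hm1 (by omega) (by omega) hne
  have h4 := h28_num h1 hm hcm hD1 hD2 hDn
  have hnr : (c : ℝ) < n := by exact_mod_cast (show c < n by omega)
  have hDr : (c : ℝ) + m = (2 : ℝ) ^ (i + 1) := by exact_mod_cast hm
  have h5 := h28_main_term (a := (T₁.card : ℝ) * T₂.card) (c := c) (m := m)
    (D := (2 : ℝ) ^ (i + 1)) (n := n) (by positivity) (by positivity) hDr (by exact_mod_cast hcm)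
    (by positivity) hnr
  have hE : (0 : ℝ) < (emp T₁ T₂ T₃).card := by exact_mod_cast hne.card_pos
  have hL : (0 : ℝ) < (ls n).card := by
    have : (emp T₁ T₂ T₃) ⊆ ls n := Finset.filter_subset _ _
    exact_mod_cast (hne.mono this).card_pos
  have h6 : Real.log (((emp T₁ T₂ T₃).card : ℝ) / (ls n).card) ≤
      2508 * n * (1 + Real.log c) - Real.log 2 / 2 * ((T₁.card : ℝ) * T₂.card * c / n) := by
    push_cast at h4
    linarith
  rw [Real.log_le_iff_le_exp (by positivity), div_le_iff₀ hL] at h6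
  exact h6

end Pool.Agent.Helper84.TL
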